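import Mathlib

/-!
# No gap in the j-primitive degrees of non-primitive tensors of order at least the dimension

A tensor of order `m` and dimension `n` is given by its entries `A u i`, where `u` is the first
index and `i : Fin (m - 1) → Fin n` lists the remaining `m - 1` indices.
-/

set_option autoImplicit false

namespace Pool.Agent.Results.MP_fa7001_co.NoGapLargeOrder

/-- the set of all `u` with `a_{u i_2 ... i_m} > 0` for some `i_2, ..., i_m ∈ S` -/
def next {m n : ℕ} (A : Fin n → (Fin (m - 1) → Fin n) → ℝ) (S : Set (Fin n)) : Set (Fin n) :=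
  {u | ∃ i : Fin (m - 1) → Fin n, (∀ t, i t ∈ S) ∧ 0 < A u i}

/-- the sets `S_k(A, j)` for `k ≥ 1` (and `S_0(A, j) = {j}`) -/
def S {m n : ℕ} (A : Fin n → (Fin (m - 1) → Fin n) → ℝ) (j : Fin n) : ℕ → Set (Fin n)
  | 0 => {j}
  | k + 1 => next A (S A j k)

/-- `A` is `j`-primitive -/
def JPrimitive {m n : ℕ} (A : Fin n → (Fin (m - 1) → Fin n) → ℝ) (j : Fin n) : Prop :=
  ∃ k, 1 ≤ k ∧ S A j k = Set.univ

/-- the `j`-primitive degree `γ_j(A)` -/
noncomputable def gamma {m n : ℕ} (A : Fin n → (Fin (m - 1) → Fin n) → ℝ) (j : Fin n) : ℕ :=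
  sInf {k | 1 ≤ k ∧ S A j k = Set.univ}

/-- the set `R_j(m, n)` -/
def R (m n : ℕ) (j : Fin n) : Set ℕ :=
  {k | ∃ A : Fin n → (Fin (m - 1) → Fin n) → ℝ, (∀ u i, 0 ≤ A u i) ∧
    ¬ (∀ j' : Fin n, JPrimitive A j') ∧ JPrimitive A j ∧ gamma A j = k}

lemma S_one {m n : ℕ} (A : Fin n → (Fin (m - 1) → Fin n) → ℝ) (j : Fin n) :
    S A j 1 = {u | 0 < A u (fun _ => j)} := by
  ext u
  constructor
  · rintro ⟨i, hi, h⟩
    have : i = fun _ => j := funext fun t => by simpa [S] using hi t
    rwa [this] at h
  · intro h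
    exact ⟨fun _ => j, fun t => by simp [S], h⟩

lemma next_mono {m n : ℕ} (A : Fin n → (Fin (m - 1) → Fin n) → ℝ) {X Y : Set (Fin n)}
    (h : X ⊆ Y) : next A X ⊆ next A Y := by
  rintro u ⟨i, hi, hu⟩
  exact ⟨i, fun t => h (hi t), hu⟩

lemma S_mono {m n : ℕ} (A : Fin n → (Fin (m - 1) → Fin n) → ℝ) {j j' : Fin n} {a b : ℕ}
    (h : S A j a ⊆ S A j' b) (c : ℕ) : S A j (a + c) ⊆ S A j' (b + c) := by
  induction c with
  | zero => exact h
  | succ c ih => exact next_mono A ih

lemma gamma_spec {m n : ℕ} {A : Fin n → (Fin (m - 1) → Fin n) → ℝ} {j : Fin n} {K : ℕ} :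
    (JPrimitive A j ∧ gamma A j = K) ↔
      (1 ≤ K ∧ S A j K = Set.univ ∧ ∀ k, 1 ≤ k → k < K → S A j k ≠ Set.univ) := by
  constructor
  · rintro ⟨h, hK⟩
    have h1 : gamma A j ∈ {k | 1 ≤ k ∧ S A j k = Set.univ} := Nat.sInf_mem h
    rw [hK] at h1
    refine ⟨h1.1, h1.2, fun k hk hlt he => ?_⟩
    have h2 : k ∉ {k | 1 ≤ k ∧ S A j k = Set.univ} :=
      Nat.notMem_of_lt_sInf (show k < gamma A j by omega)
    exact h2 ⟨hk, he⟩
  · rintro ⟨h1, h2, h3⟩
    refine ⟨⟨K, h1, h2⟩, ?_⟩
    apply le_antisymm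
    · exact Nat.sInf_le ⟨h1, h2⟩
    · refine le_csInf (s := {k | 1 ≤ k ∧ S A j k = Set.univ}) ⟨K, h1, h2⟩ ?_
      rintro b ⟨hb1, hb2⟩
      by_contra hc
      exact h3 b hb1 (by omega) hb2

lemma range_exists {m n : ℕ} (hmn : n ≤ m) {M : Set (Fin n)} (hne : M.Nonempty)
    (hM : M ≠ Set.univ) : ∃ i : Fin (m - 1) → Fin n, Set.range i = M := by
  classical
  have : Nonempty M := hne.to_subtype
  have hlt : Fintype.card M < Fintype.card (Fin n) := by
    obtain ⟨x, hx⟩ := (Set.ne_univ_iff_exists_notMem M).1 hM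
    exact Fintype.card_subtype_lt (p := fun y => y ∈ M) hx
  have hle : Fintype.card M ≤ Fintype.card (Fin (m - 1)) := by
    rw [Fintype.card_fin] at hlt ⊢
    omega
  obtain ⟨e⟩ := Function.Embedding.nonempty_of_card_le hle
  refine ⟨fun t => (Function.invFun e t : M), ?_⟩
  ext x
  constructor
  · rintro ⟨t, rfl⟩
    exact (Function.invFun e t).2
  · intro hx
    refine ⟨e ⟨x, hx⟩, ?_⟩
    simp [Function.leftInverse_invFun e.injective ⟨x, hx⟩]

lemma one_mem {m n : ℕ} (hn : 2 ≤ n) (hm : 2 ≤ m) (j : Fin n) : 1 ∈ R m n j := by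
  classical
  let A : Fin n → (Fin (m - 1) → Fin n) → ℝ := fun _ i => if i = fun _ => j then 1 else 0
  have : Nonempty (Fin (m - 1)) := ⟨⟨0, by omega⟩⟩
  refine ⟨A, fun u i => by simp only [A]; split_ifs <;> norm_num, ?_, ?_⟩
  · intro h
    obtain ⟨j', hj'⟩ : ∃ j' : Fin n, j' ≠ j := by
      have : Nontrivial (Fin n) := Fin.nontrivial_iff_two_le.2 hn
      exact exists_ne j
    obtain ⟨k, hk, hk2⟩ := h j'
    have h0 : ∀ k, 1 ≤ k → S A j' k = ∅ := by
      intro k hk
      induction k, hk using Nat.le_induction with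
      | base =>
        rw [S_one]
        ext u
        simp only [Set.mem_ofPred_eq, Set.mem_empty_iff_false, iff_false, A]
        have : (fun _ : Fin (m - 1) => j') ≠ fun _ => j := by
          intro e
          exact hj' (congrFun e (Classical.arbitrary _))
        rw [if_neg this]
        exact lt_irrefl _
      | succ k _ ih =>
        show next A (S A j' k) = ∅
        rw [ih]
        ext u
        simp only [Set.mem_empty_iff_false, iff_false]
        rintro ⟨i, hi, -⟩
        exact hi (Classical.arbitrary _)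
    rw [h0 k hk] at hk2
    have : j ∈ (∅ : Set (Fin n)) := by rw [hk2]; trivial
    exact this
  · rw [gamma_spec]
    refine ⟨le_rfl, ?_, fun k h1 h2 => by omega⟩
    rw [S_one]
    ext u
    simp [A]

lemma pred_mem {m n : ℕ} (hmn : n ≤ m) {j : Fin n} {K : ℕ} (hK : 2 ≤ K) (h : K ∈ R m n j) :
    K - 1 ∈ R m n j := by
  classical
  obtain ⟨A, hA, hnp, hg⟩ := h
  rw [gamma_spec] at hg
  obtain ⟨-, hK2, hmin⟩ := hg
  obtain ⟨c, rfl⟩ : ∃ c, K = c + 2 := ⟨K - 2, by omega⟩
  set M : Set (Fin n) := S A j c with hMdef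
  -- any set of the trajectories containing `M` leads to `univ` in two more steps
  have hkey : ∀ (j' : Fin n) (k : ℕ), M ⊆ S A j' k → S A j' (k + 2) = Set.univ := by
    intro j' k hk
    have := S_mono A hk 2
    rw [hK2] at this
    exact Set.univ_subset_iff.1 this
  have hn1 : ∃ j' : Fin n, ¬ JPrimitive A j' := by
    by_contra hc
    push Not at hc
    exact hnp hc
  obtain ⟨j₀, hj₀⟩ := hn1
  have hMne : M.Nonempty := by
    rw [Set.nonempty_iff_ne_empty]
    intro he
    exact hj₀ ⟨0 + 2, by omega, hkey j₀ 0 (by rw [he]; exact Set.empty_subset _)⟩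
  have hMu : M ≠ Set.univ := by
    intro he
    rcases Nat.eq_zero_or_pos c with hc | hc
    · subst hc
      have h1 : S A j 1 = Set.univ := by
        have hS0 : S A j 0 = Set.univ := he
        -- then `Fin n` is a singleton, so `A` would be primitive
        exfalso
        apply hj₀
        have : j₀ = j := by
          have : j₀ ∈ S A j 0 := by rw [hS0]; trivial
          simpa [S] using this
        rw [this]
        exact ⟨0 + 2, by omega, hK2⟩
      exact hmin 1 le_rfl (by omega) h1
    · exact hmin c hc (by omega) he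
  obtain ⟨i₀, hi₀⟩ := range_exists hmn hMne hMu
  let A' : Fin n → (Fin (m - 1) → Fin n) → ℝ := fun u i => if Set.range i = M then 1 else A u i
  have hnext1 : ∀ X : Set (Fin n), M ⊆ X → next A' X = Set.univ := by
    intro X hX
    rw [Set.eq_univ_iff_forall]
    intro u
    refine ⟨i₀, fun t => hX (hi₀ ▸ Set.mem_range_self t), ?_⟩
    simp only [A', if_pos hi₀]
    norm_num
  have hnext2 : ∀ X : Set (Fin n), ¬ M ⊆ X → next A' X = next A X := by
    intro X hX
    ext u
    constructor
    · rintro ⟨i, hi, hu⟩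
      refine ⟨i, hi, ?_⟩
      have : Set.range i ≠ M := by
        intro e
        apply hX
        rw [← e]
        rintro _ ⟨t, rfl⟩
        exact hi t
      simpa only [A', if_neg this] using hu
    · rintro ⟨i, hi, hu⟩
      refine ⟨i, hi, ?_⟩
      have : Set.range i ≠ M := by
        intro e
        apply hX
        rw [← e]
        rintro _ ⟨t, rfl⟩
        exact hi t
      simpa only [A', if_neg this] using hu
  have htraj : ∀ k, k ≤ c → S A' j k = S A j k := by
    intro k
    induction k with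
    | zero => intro _; rfl
    | succ k ih =>
      intro hk
      show next A' (S A' j k) = next A (S A j k)
      rw [ih (by omega)]
      apply hnext2
      intro hsub
      exact hmin (k + 2) (by omega) (by omega) (hkey j k hsub)
  refine ⟨A', fun u i => ?_, ?_, ?_⟩
  · simp only [A']
    split_ifs
    · norm_num
    · exact hA u i
  · intro hp
    obtain ⟨k, hk, hk2⟩ := hp j₀
    have hall : ∀ k, S A' j₀ k = S A j₀ k := by
      intro k
      induction k with
      | zero => rfl
      | succ k ih =>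
        show next A' (S A' j₀ k) = next A (S A j₀ k)
        rw [ih]
        apply hnext2
        intro hsub
        exact hj₀ ⟨k + 2, by omega, hkey j₀ k hsub⟩
    rw [hall k] at hk2
    exact hj₀ ⟨k, hk, hk2⟩
  · rw [gamma_spec]
    refine ⟨by omega, ?_, ?_⟩
    · show S A' j (c + 2 - 1) = Set.univ
      have : c + 2 - 1 = c + 1 := by omega
      rw [this]
      show next A' (S A' j c) = Set.univ
      rw [htraj c le_rfl]
      exact hnext1 _ (le_refl M)
    · intro k hk hlt
      rw [htraj k (by omega)]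
      exact hmin k hk (by omega)

lemma bound {m n : ℕ} {j : Fin n} {K : ℕ} (h : K ∈ R m n j) : K ≤ 2 ^ n := by
  classical
  obtain ⟨A, -, -, hg⟩ := h
  rw [gamma_spec] at hg
  obtain ⟨hK1, hK2, hmin⟩ := hg
  have hinj : Function.Injective (fun k : Fin K => S A j k) := by
    have key : ∀ a b : ℕ, a < b → b < K → S A j a ≠ S A j b := by
      intro a b hab hb he
      have h1 := S_mono A (le_of_eq he.symm : S A j b ⊆ S A j a) (K - b)
      rw [show b + (K - b) = K by omega, hK2] at h1
      exact hmin (a + (K - b)) (by omega) (by omega) (Set.univ_subset_iff.1 h1)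
    intro a b hab
    rcases lt_trichotomy (a : ℕ) b with h | h | h
    · exact absurd hab (key a b h b.2)
    · exact Fin.ext h
    · exact absurd hab.symm (key b a h a.2)
  have := Fintype.card_le_of_injective _ hinj
  simpa using this

/-- If the order `m` is at least the dimension `n ≥ 2`, then for every `j` the set `R_j(m, n)` of
`j`-primitive degrees of the `j`-primitive, non-primitive nonnegative tensors of order `m` and
dimension `n` is `{1, 2, ..., N}` for some `N`; in particular it has no gap. -/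
theorem result (m n : ℕ) (hn : 2 ≤ n) (hmn : n ≤ m) (j : Fin n) :
    ∃ N : ℕ, 1 ≤ N ∧ R m n j = Set.Icc 1 N := by
  have hbdd : BddAbove (R m n j) := ⟨2 ^ n, fun K hK => bound hK⟩
  have h1 : 1 ∈ R m n j := one_mem hn (by omega) j
  have hmem : sSup (R m n j) ∈ R m n j := Nat.sSup_mem ⟨1, h1⟩ hbdd
  refine ⟨sSup (R m n j), le_csSup hbdd h1, ?_⟩
  apply Set.Subset.antisymm
  · intro K hK
    refine ⟨?_, le_csSup hbdd hK⟩
    obtain ⟨A, -, -, hg⟩ := hK
    rw [gamma_spec] at hg
    exact hg.1
  · intro k hk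
    obtain ⟨hk1, hk2⟩ := hk
    have hdown : ∀ d : ℕ, d < sSup (R m n j) → sSup (R m n j) - d ∈ R m n j := by
      intro d
      induction d with
      | zero => intro _; simpa using hmem
      | succ d ih =>
        intro hd
        have := pred_mem hmn (K := sSup (R m n j) - d) (by omega) (ih (by omega))
        rwa [show sSup (R m n j) - (d + 1) = sSup (R m n j) - d - 1 by omega]
    have := hdown (sSup (R m n j) - k) (by omega)
    rwa [show sSup (R m n j) - (sSup (R m n j) - k) = k by omega] at this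

end Pool.Agent.Results.MP_fa7001_co.NoGapLargeOrder
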